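import Pool.Agent.helper37.NE.SpecC

set_option autoImplicit false

/-! Row ne:YTC: transport along the inclusion of an extension. -/

namespace Pool.Agent.NE

open Pool.Agent.helper58.DC Pool.Agent.DI Pool.Agent.GR Pool.Agent.OB Pool.Agent.DR Pool.Agent.FI Pool.Agent.FI3 Pool.Agent.FI4 Pool.Agent.FI4I Pool.Agent.LE Pool.Agent.L5 Pool.Agent.NAB Pool.Agent.ND

section
variable {G E : Type} [Group G] [Group E]

theorem YTC_cls (i : G →* E) (hi : Function.Injective i) (y g : G) : cls i.range (i y) (i g) = cls (⊤ : Subgroup G) y g := by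
  unfold cls
  have h : (∃ l ∈ i.range, l * i y * l⁻¹ = i g) ↔ ∃ l ∈ (⊤ : Subgroup G), l * y * l⁻¹ = g := by
    constructor
    · rintro ⟨_, ⟨l, rfl⟩, hl⟩
      refine ⟨l, Subgroup.mem_top _, hi ?_⟩
      rw [map_mul, map_mul, map_inv]
      exact hl
    · rintro ⟨l, -, hl⟩
      refine ⟨i l, ⟨l, rfl⟩, ?_⟩
      rw [← hl, map_mul, map_mul, map_inv]
  by_cases h1 : ∃ l ∈ (⊤ : Subgroup G), l * y * l⁻¹ = g
  · rw [if_pos (h.2 h1), if_pos h1]
  · rw [if_neg (fun h2 => h1 (h.1 h2)), if_neg h1]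

theorem YTC_sum (i : G →* E) (hi : Function.Injective i) (f : E → ℂ) (h0 : ∀ u, u ∉ i.range → f u = 0) :
    ∑ᶠ u, f u = ∑ᶠ g, f (i g) := by
  rw [← finsum_mem_range hi]
  refine finsum_congr fun u => ?_
  classical
  rw [finsum_eq_if]
  by_cases hu : u ∈ Set.range i
  · rw [if_pos hu]
  · rw [if_neg hu]
    exact h0 u hu

theorem YTC_cc (i : G →* E) (hi : Function.Injective i) (ψ : G → ℂ) (h1 : ∀ k, ext0 i ψ (i k) = ψ k)
    (h2 : ∀ x, x ∉ i.range → ext0 i ψ x = 0) (y : G) :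
    cc (ext0 i ψ) (cls i.range (i y)) = cc ψ (cls (⊤ : Subgroup G) y) := by
  unfold cc
  rw [YTC_sum i hi _ (fun u hu => by rw [h2 u hu, mul_zero])]
  have h3 : ext0 i ψ 1 = ψ 1 := by
    have := h1 1
    rwa [map_one] at this
  rw [h3]
  congr 1
  refine finsum_congr fun g => ?_
  rw [h1, YTC_cls i hi]

theorem YTC_Cz (i : G →* E) (hi : Function.Injective i) (y : G) :
    Nat.card (Cz i.range (i y)) = Nat.card (Cz (⊤ : Subgroup G) y) := by
  have h : Cz i.range (i y) = (Cz (⊤ : Subgroup G) y).map i := by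
    ext u
    unfold Cz
    rw [Subgroup.mem_inf, Subgroup.mem_map, Subgroup.mem_centralizer_singleton_iff]
    constructor
    · rintro ⟨⟨g, rfl⟩, h⟩
      refine ⟨g, ?_, rfl⟩
      rw [Subgroup.mem_inf, Subgroup.mem_centralizer_singleton_iff]
      refine ⟨Subgroup.mem_top _, hi ?_⟩
      rw [map_mul, map_mul]
      exact h
    · rintro ⟨g, hg, rfl⟩
      rw [Subgroup.mem_inf, Subgroup.mem_centralizer_singleton_iff] at hg
      refine ⟨⟨g, rfl⟩, ?_⟩
      rw [← map_mul, hg.2, map_mul]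
  rw [h]
  exact Nat.card_congr ((Subgroup.equivMapOfInjective _ i hi).toEquiv.symm)

end

theorem YTC (hB13 : B13_stmt) (hTPR : Pool.Agent.FI.TPR_stmt) (hDCM : Pool.Agent.FI.DCM_stmt) : YTC_stmt := by
  intro p e m M hS G E A _ _ _ _ _ X χ hχ
  have hi := X.inc_injective
  obtain ⟨b1, b2, -, -, -, b6⟩ := hB13 G E p X.inc hi ⊤
  obtain ⟨t1, t2, -, -, -⟩ := hTPR p M hS G
  have hcc : ∀ (ψ : G → ℂ) (y : G), cc (ext0 X.inc ψ) (cls X.inc.range (X.inc y)) = cc ψ (cls (⊤ : Subgroup G) y) :=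
    fun ψ y => YTC_cc X.inc hi ψ (b1 ψ).1 (b1 ψ).2 y
  refine ⟨?_, ?_, ?_, ?_⟩
  · rw [MonoidHom.range_eq_map]
    refine (b2 χ).1 ?_
    rw [t1]
    exact hχ
  · intro z x h
    refine ⟨?_, ?_, ?_, ⟨z, rfl⟩, ⟨x, rfl⟩, ?_, ?_, ?_⟩
    · obtain ⟨k, hk⟩ := h.pe
      exact ⟨k, by rw [← map_pow, hk, map_one]⟩
    · have := h.re
      unfold PReg at this ⊢
      rwa [orderOf_injective X.inc hi]
    · rw [← map_mul, h.co, map_mul]
    · rw [orderOf_injective X.inc hi]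
      exact h.od
    · rw [← map_mul, hcc]
      exact h.ne
    · have := h.cd
      unfold pp at this ⊢
      rw [← map_mul, YTC_Cz X.inc hi]
      exact this
  · refine ⟨fun n hn g => ?_⟩
    obtain ⟨k, rfl⟩ := hn
    exact ⟨X.act g k, X.act_spec g k⟩
  · intro hSt g
    have h1 : cjF g (ext0 X.inc χ) = ext0 X.inc (funMap (X.act g) χ) := b6 χ (X.act g) g (X.act_spec g)
    rw [h1, (hDCM E X.inc.range M p hS).2]
    rintro _ ⟨y, rfl⟩
    rw [hcc, hcc]
    exact ((hDCM G ⊤ M p hS).2 _ _).1 ((t2 _ _).1 (hSt g)) y (Subgroup.mem_top y)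

end Pool.Agent.NE
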